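import Pool.Agent.W957.MF.Stm2

/-! Project MF: the toggling argument. -/

set_option autoImplicit false

namespace Pool.Agent.W154.MF

open Finset
open Pool.Agent.W957.MF

/-- toggle the element `x` -/
def tog (x : ℕ) (S : Finset ℕ) : Finset ℕ := if x ∈ S then S.erase x else insert x S

theorem mem_tog {x y : ℕ} {S : Finset ℕ} (h : y ≠ x) : y ∈ tog x S ↔ y ∈ S := by
  unfold tog
  split_ifs <;> simp [h]

theorem self_mem_tog {x : ℕ} {S : Finset ℕ} : x ∈ tog x S ↔ x ∉ S := by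
  unfold tog
  split_ifs with h <;> simp [h]

theorem tog_tog (x : ℕ) (S : Finset ℕ) : tog x (tog x S) = S := by
  ext y
  by_cases h : y = x
  · subst h
    rw [self_mem_tog, self_mem_tog, not_not]
  · rw [mem_tog h, mem_tog h]

theorem tog_ne (x : ℕ) (S : Finset ℕ) : tog x S ≠ S := by
  intro h
  have h1 := @self_mem_tog x S
  rw [h] at h1
  by_cases h2 : x ∈ S
  · exact h1.1 h2 h2
  · exact h2 (h1.2 h2)

theorem neg_one_tog (x : ℕ) (S : Finset ℕ) :
    (-1 : ℤ) ^ S.card + (-1 : ℤ) ^ (tog x S).card = 0 := by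
  unfold tog
  split_ifs with h
  · rw [← card_erase_add_one h, pow_succ]
    ring
  · rw [card_insert_of_notMem h, pow_succ]
    ring

theorem tog_subset {x n : ℕ} {S : Finset ℕ} (h1 : 1 ≤ x) (h2 : x ≤ n) (hS : S ⊆ Icc 1 n) :
    tog x S ⊆ Icc 1 n := by
  intro y hy
  by_cases h : y = x
  · subst h
    exact mem_Icc.2 ⟨h1, h2⟩
  · exact hS ((mem_tog h).1 hy)

theorem occ_mono {z : Conf} {S S' : Finset ℕ} {k : ℕ} {σ : Equiv.Perm (Fin k)}
    (h : Occ z S σ) (hS : S ⊆ S') : Occ z S' σ := by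
  obtain ⟨f, h1, h2, h3⟩ := h
  exact ⟨f, fun i => hS (h1 i), h2, h3⟩

/-- the last maximal run -/
theorem last_run (A : Finset ℕ) (n : ℕ) (hA : A ⊆ Icc 1 n) (hne : A.Nonempty) :
    ∃ s0 j0, 1 ≤ s0 ∧ s0 ≤ j0 ∧ j0 ≤ n ∧ Icc s0 j0 ⊆ A ∧ s0 - 1 ∉ A ∧ ∀ a ∈ A, a ≤ j0 := by
  classical
  set j0 := A.max' hne with hj0
  have hj0A : j0 ∈ A := A.max'_mem hne
  have hj0' := mem_Icc.1 (hA hj0A)
  have hex : ∃ s, s ≤ j0 ∧ Icc s j0 ⊆ A := ⟨j0, le_rfl, by
    intro a ha
    rw [Icc_self, mem_singleton] at ha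
    rwa [ha]⟩
  have hsp := Nat.find_spec hex
  have hmin := fun m => @Nat.find_min _ _ hex m
  set s0 := Nat.find hex with hs0
  have hs1 : 1 ≤ s0 := (mem_Icc.1 (hA (hsp.2 (mem_Icc.2 ⟨le_rfl, hsp.1⟩)))).1
  refine ⟨s0, j0, hs1, hsp.1, hj0'.2, hsp.2, ?_, fun a ha => A.le_max' a ha⟩
  intro hmem
  apply hmin (s0 - 1) (by omega)
  refine ⟨by omega, ?_⟩
  intro a ha
  rw [mem_Icc] at ha
  by_cases h : a = s0 - 1
  · rwa [h]
  · exact hsp.2 (mem_Icc.2 ⟨by omega, ha.2⟩)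

section
variable {z : Conf} {n : ℕ} {k : ℕ} {σ : Equiv.Perm (Fin k)}

/-- the set of starts of typed runs contained in `S` -/
def st (z : Conf) (n : ℕ) {k : ℕ} (σ : Equiv.Perm (Fin k)) (S : Finset ℕ) (s : ℕ) : Prop :=
  ∃ e, TR z n σ s e ∧ Icc s e ⊆ S

theorem st_bd {S : Finset ℕ} {s : ℕ} (h : st z n σ S s) : 3 ≤ s ∧ s ≤ n := by
  obtain ⟨e, ⟨h1, h2, T, ⟨t, ht⟩, h3, -⟩, -⟩ := h
  have := h3 t ht
  omega

theorem occ_inj {f : Fin k → ℕ} (h : ∀ i j, i < j ↔ z true (f i) < z true (f j)) :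
    Function.Injective f := by
  intro i j hij
  by_contra hc
  rcases lt_or_gt_of_ne hc with h1 | h1
  · have := (h i j).1 h1
    rw [hij] at this
    exact lt_irrefl _ this
  · have := (h j i).1 h1
    rw [hij] at this
    exact lt_irrefl _ this

/-- dichotomy for the image of an occurrence -/
theorem typed {A : Finset ℕ} {s0 j0 : ℕ} (hA : A ⊆ Icc 1 n) (hR : Real z A σ) (h2 : s0 ≤ j0)
    (h3 : j0 ≤ n) (h4 : Icc s0 j0 ⊆ A) (h5 : s0 - 1 ∉ A) (h6 : ∀ a ∈ A, a ≤ j0)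
    (h7 : ∃ a ∈ A, a < s0) : TR z n σ s0 j0 := by
  classical
  refine ⟨h2, h3, A.filter (fun a => a < s0), ?_, ?_, ?_⟩
  · obtain ⟨a, ha, ha'⟩ := h7
    exact ⟨a, mem_filter.2 ⟨ha, ha'⟩⟩
  · intro t ht
    rw [mem_filter] at ht
    have h8 := mem_Icc.1 (hA ht.1)
    refine ⟨h8.1, ?_⟩
    have h9 : t ≠ s0 - 1 := fun h => h5 (h ▸ ht.1)
    omega
  · have : A.filter (fun a => a < s0) ∪ Icc s0 j0 = A := by
      ext a
      rw [mem_union, mem_filter, mem_Icc]
      constructor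
      · rintro (h | h)
        · exact h.1
        · exact h4 (mem_Icc.2 h)
      · intro ha
        by_cases h : a < s0
        · exact Or.inl ⟨ha, h⟩
        · exact Or.inr ⟨by omega, h6 a ha⟩
    rw [this]
    exact hR

/-- the image of an occurrence -/
theorem image_real {S : Finset ℕ} {f : Fin k → ℕ} (_h1 : ∀ i, f i ∈ S)
    (h2 : ∀ i j, i < j ↔ z true (f i) < z true (f j))
    (h3 : ∀ i j, σ i < σ j ↔ z false (f i) < z false (f j)) :
    Real z (univ.image f) σ := by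
  refine ⟨?_, f, fun i => mem_image_of_mem f (mem_univ i), h2, h3⟩
  rw [card_image_of_injective _ (occ_inj h2), card_univ, Fintype.card_fin]

/-- the key step: remove `i - 1` -/
theorem step (hU : S_U) {Q : ℕ → Bool → Bool} {e : ℕ → Bool} (hP : Pin z n Q e)
    {S : Finset ℕ} (hS : S ⊆ Icc 1 n) {i : ℕ} (hi : st z n σ S i)
    (hmax : ∀ s, st z n σ S s → s ≤ i) (hocc : Occ z S σ) :
    Occ z (S.erase (i - 1)) σ := by
  classical
  obtain ⟨φA, hA1, hA2, hA3⟩ := hocc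
  have hAinj := occ_inj hA2
  set A := univ.image φA with hA
  have hAS : A ⊆ S := by
    intro a ha
    obtain ⟨u, -, rfl⟩ := mem_image.1 ha
    exact hA1 u
  have hAn : A ⊆ Icc 1 n := hAS.trans hS
  by_cases hiA : i - 1 ∈ A
  swap
  · refine ⟨φA, ?_, hA2, hA3⟩
    intro u
    rw [mem_erase]
    refine ⟨?_, hA1 u⟩
    intro h
    exact hiA (h ▸ mem_image_of_mem φA (mem_univ u))
  have hib := st_bd hi
  obtain ⟨s0, j0, r1, r2, r3, r4, r5, r6⟩ := last_run A n hAn ⟨_, hiA⟩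
  have hs0 : s0 ≤ i - 1 := by
    by_contra hc
    push Not at hc
    have hT := typed hAn (image_real hA1 hA2 hA3) r2 r3 r4 r5 r6 ⟨i - 1, hiA, hc⟩
    have h1 := hmax s0 ⟨j0, hT, r4.trans hAS⟩
    have h2 : s0 - 1 = i - 1 := by omega
    rw [h2] at r5
    exact r5 hiA
  obtain ⟨j, ⟨hij, hjn, T, hTne, hT, hTc, φB, hB1, hB2, hB3⟩, hIS⟩ := hi
  have hBinj := occ_inj hB2
  have hBim : univ.image φB = T ∪ Icc i j := by
    apply eq_of_subset_of_card_le
    · intro a ha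
      obtain ⟨u, -, rfl⟩ := mem_image.1 ha
      exact hB1 u
    · rw [hTc, card_image_of_injective _ hBinj, card_univ, Fintype.card_fin]
  have hAB : ∀ b u v, z b (φA u) < z b (φA v) ↔ z b (φB u) < z b (φB v) := by
    intro b u v
    cases b
    · rw [← hA3, ← hB3]
    · rw [← hA2, ← hB2]
  have key := hU z n Q e hP k A T i j j0 φA φB hAinj hBinj hAB rfl hBim hTne hT hij hjn hAn hiA
    (fun a ha => ⟨fun h => r6 a h, fun h => r4 (mem_Icc.2 ⟨by omega, h⟩)⟩)
  set ψ : Fin k → ℕ := fun u => if φB u ∈ T then φA u else φB u with hψ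
  have hψ1 : ∀ u, φB u ∈ T → ψ u = φA u := fun u h => by simp [hψ, h]
  have hψ2 : ∀ u, φB u ∉ T → ψ u = φB u := fun u h => by simp [hψ, h]
  have hBI : ∀ u, φB u ∉ T → i ≤ φB u ∧ φB u ≤ j := by
    intro u hu
    have := hB1 u
    rw [mem_union, mem_Icc] at this
    tauto
  -- comparison with the far points
  have far : ∀ b h t r, 1 ≤ h → h + 2 ≤ r → 1 ≤ t → t + 2 ≤ r → 3 ≤ r → r ≤ n →
      ((z b h < z b r ↔ z b t < z b r) ∧ (z b r < z b h ↔ z b r < z b t)) := by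
    intro b h t r h1 h2 h3 h4 h5 h6
    have f1 := hP.far r h b h5 h6 h1 h2
    have f2 := hP.far r t b h5 h6 h3 h4
    cases hq : Q r b
    · rw [hq] at f1 f2
      simp only [sl] at f1 f2
      exact ⟨⟨fun h => absurd h (not_lt.2 f1.le), fun h => absurd h (not_lt.2 f2.le)⟩,
        ⟨fun _ => f2, fun _ => f1⟩⟩
    · rw [hq] at f1 f2
      simp only [sl] at f1 f2
      exact ⟨⟨fun _ => f2, fun _ => f1⟩,
        ⟨fun h => absurd h (not_lt.2 f1.le), fun h => absurd h (not_lt.2 f2.le)⟩⟩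
  have main : ∀ b u v, z b (ψ u) < z b (ψ v) ↔ z b (φA u) < z b (φA v) := by
    intro b u v
    by_cases hu : φB u ∈ T <;> by_cases hv : φB v ∈ T
    · rw [hψ1 u hu, hψ1 v hv]
    · rw [hψ1 u hu, hψ2 v hv, hAB]
      have h1 := mem_Icc.1 (hAn (mem_image_of_mem φA (mem_univ u)))
      have h2 := key u hu
      have h3 := hT _ hu
      have h4 := hBI v hv
      exact (far b _ _ _ h1.1 (by omega) h3.1 (by omega) (by omega) (by omega)).1
    · rw [hψ2 u hu, hψ1 v hv, hAB]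
      have h1 := mem_Icc.1 (hAn (mem_image_of_mem φA (mem_univ v)))
      have h2 := key v hv
      have h3 := hT _ hv
      have h4 := hBI u hu
      exact (far b _ _ _ h1.1 (by omega) h3.1 (by omega) (by omega) (by omega)).2
    · rw [hψ2 u hu, hψ2 v hv, hAB]
  refine ⟨ψ, ?_, ?_, ?_⟩
  · intro u
    rw [mem_erase]
    by_cases hu : φB u ∈ T
    · rw [hψ1 u hu]
      have h2 := key u hu
      exact ⟨by omega, hA1 u⟩
    · rw [hψ2 u hu]
      have h4 := hBI u hu
      exact ⟨by omega, hIS (mem_Icc.2 h4)⟩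
  · intro u v
    rw [main, ← hA2]
  · intro u v
    rw [main, ← hA3]

end

theorem t_PIN (hU : S_U) : S_PIN := by
  classical
  intro z n Q e hP hn k σ hk
  -- the maximal start
  set mx : Finset ℕ → ℕ := fun S => Nat.findGreatest (st z n σ S) n with hmx
  have mx_spec : ∀ S, (∃ s, st z n σ S s) → st z n σ S (mx S) := by
    intro S ⟨s, hs⟩
    exact Nat.findGreatest_spec (st_bd hs).2 hs
  have mx_max : ∀ S s, st z n σ S s → s ≤ mx S := fun S s hs =>
    Nat.le_findGreatest (st_bd hs).2 hs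
  -- toggling below the maximal start
  have st_tog : ∀ S i, st z n σ S i → (∀ s, st z n σ S s → s ≤ i) →
      st z n σ (tog (i - 1) S) i ∧ ∀ s, st z n σ (tog (i - 1) S) s → s ≤ i := by
    intro S i hi hmax
    have hib := st_bd hi
    refine ⟨?_, ?_⟩
    · obtain ⟨j, h1, h2⟩ := hi
      refine ⟨j, h1, ?_⟩
      intro a ha
      have := mem_Icc.1 ha
      rw [mem_tog (by omega)]
      exact h2 ha
    · rintro s ⟨j, h1, h2⟩
      by_contra hc
      push Not at hc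
      have h3 : st z n σ S s := by
        refine ⟨j, h1, ?_⟩
        intro a ha
        have := mem_Icc.1 ha
        exact (mem_tog (by omega : a ≠ i - 1)).1 (h2 ha)
      have := hmax s h3
      omega
  have mx_tog : ∀ S, (∃ s, st z n σ S s) → mx (tog (mx S - 1) S) = mx S := by
    intro S hS
    have h1 := mx_spec S hS
    obtain ⟨h2, h3⟩ := st_tog S (mx S) h1 (mx_max S)
    exact le_antisymm (h3 _ (mx_spec _ ⟨_, h2⟩)) (mx_max _ _ h2)
  -- goodness
  have good_tog : ∀ S, S ⊆ Icc 1 n → (∃ s, st z n σ S s) → Occ z S σ →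
      Occ z (tog (mx S - 1) S) σ := by
    intro S hS hst hocc
    unfold tog
    split_ifs with h
    · exact step hU hP hS (mx_spec S hst) (mx_max S) hocc
    · exact occ_mono hocc (subset_insert _ _)
  -- (a)
  have ha : ∑ S ∈ ((Icc 1 n).powerset.filter (fun S => Occ z S σ)).filter
      (fun S => ∃ s, st z n σ S s), (-1 : ℤ) ^ S.card = 0 := by
    apply Finset.sum_involution (fun S _ => tog (mx S - 1) S)
    · intro S hS
      exact neg_one_tog _ _
    · intro S hS _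
      exact tog_ne _ _
    · intro S hS
      rw [mem_filter, mem_filter, mem_powerset] at hS ⊢
      obtain ⟨⟨h1, h2⟩, h3⟩ := hS
      have h4 := st_bd (mx_spec S h3)
      exact ⟨⟨tog_subset (by omega) (by omega) h1, good_tog S h1 h3 h2⟩,
        ⟨_, (st_tog S (mx S) (mx_spec S h3) (mx_max S)).1⟩⟩
    · intro S hS
      rw [mem_filter] at hS
      rw [mx_tog S hS.2, tog_tog]
  -- (d)
  have hd : ∑ S ∈ (Icc 1 n).powerset.filter (fun S => ¬ ∃ s, st z n σ S s),
      (-1 : ℤ) ^ S.card = 0 := by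
    apply Finset.sum_involution (fun S _ => tog 1 S)
    · intro S hS
      exact neg_one_tog _ _
    · intro S hS _
      exact tog_ne _ _
    · intro S hS
      rw [mem_filter, mem_powerset] at hS ⊢
      refine ⟨tog_subset le_rfl hn hS.1, ?_⟩
      rintro ⟨s, hs⟩
      apply hS.2
      have hsb := st_bd hs
      obtain ⟨j, h1, h2⟩ := hs
      refine ⟨s, j, h1, ?_⟩
      intro a ha
      have := mem_Icc.1 ha
      exact (mem_tog (by omega : a ≠ 1)).1 (h2 ha)
    · intro S hS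
      exact tog_tog _ _
  -- (b)
  have hb : ((Icc 1 n).powerset.filter (fun S => Occ z S σ)).filter
      (fun S => ¬ ∃ s, st z n σ S s) =
      ((Icc 1 n).powerset.filter (fun S => ¬ ∃ s, st z n σ S s)).filter
      (fun S => ∃ s e, WI z n σ s e ∧ Icc s e ⊆ S) := by
    ext S
    rw [mem_filter, mem_filter, mem_filter, mem_filter, mem_powerset]
    constructor
    · rintro ⟨⟨h1, f, hf1, hf2, hf3⟩, h3⟩
      refine ⟨⟨h1, h3⟩, ?_⟩
      have hAS : univ.image f ⊆ S := by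
        intro a ha
        obtain ⟨u, -, rfl⟩ := mem_image.1 ha
        exact hf1 u
      have hAn := hAS.trans h1
      have hR := image_real hf1 hf2 hf3
      have hne : (univ.image f).Nonempty := ⟨f ⟨0, by omega⟩, mem_image_of_mem f (mem_univ _)⟩
      obtain ⟨s0, j0, r1, r2, r3, r4, r5, r6⟩ := last_run _ n hAn hne
      have hall : ∀ a ∈ univ.image f, s0 ≤ a := by
        intro a ha
        by_contra hc
        push Not at hc
        exact h3 ⟨s0, j0, typed hAn hR r2 r3 r4 r5 r6 ⟨a, ha, hc⟩, r4.trans hAS⟩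
      have hEq : univ.image f = Icc s0 j0 :=
        Subset.antisymm (fun a ha => mem_Icc.2 ⟨hall a ha, r6 a ha⟩) r4
      refine ⟨s0, j0, ⟨r1, r2, r3, ?_⟩, r4.trans hAS⟩
      rw [← hEq]
      exact hR
    · rintro ⟨⟨h1, h3⟩, s, j, ⟨w1, w2, w3, w4⟩, h5⟩
      exact ⟨⟨h1, occ_mono w4.2 h5⟩, h3⟩
  have hc : ((Icc 1 n).powerset.filter (fun S => ¬ ∃ s, st z n σ S s)).filter
      (fun S => ¬ ∃ s e, WI z n σ s e ∧ Icc s e ⊆ S) =
      (Icc 1 n).powerset.filter (fun S => ∀ s e, FI z n σ s e → ¬ Icc s e ⊆ S) := by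
    ext S
    rw [mem_filter, mem_filter, mem_filter]
    constructor
    · rintro ⟨⟨h1, h2⟩, h3⟩
      refine ⟨h1, ?_⟩
      rintro s j (h | h) h4
      · exact h2 ⟨s, j, h, h4⟩
      · exact h3 ⟨s, j, h, h4⟩
    · rintro ⟨h1, h2⟩
      refine ⟨⟨h1, ?_⟩, ?_⟩
      · rintro ⟨s, j, h, h4⟩
        exact h2 s j (Or.inl h) h4
      · rintro ⟨s, j, h, h4⟩
        exact h2 s j (Or.inr h) h4
  have e1 := Finset.sum_filter_add_sum_filter_not
    ((Icc 1 n).powerset.filter (fun S => Occ z S σ)) (fun S => ∃ s, st z n σ S s)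
    (fun S => (-1 : ℤ) ^ S.card)
  have e2 := Finset.sum_filter_add_sum_filter_not
    ((Icc 1 n).powerset.filter (fun S => ¬ ∃ s, st z n σ S s))
    (fun S => ∃ s e, WI z n σ s e ∧ Icc s e ⊆ S) (fun S => (-1 : ℤ) ^ S.card)
  rw [ha, hb, zero_add] at e1
  rw [hd, hc] at e2
  have e3 : g z (Icc 1 n) σ = ∑ S ∈ (Icc 1 n).powerset.filter (fun S => Occ z S σ),
      (-1 : ℤ) ^ S.card := by
    unfold g
    congr
  have e4 : NF (FI z n σ) n = ∑ S ∈ (Icc 1 n).powerset.filter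
      (fun S => ∀ s e, FI z n σ s e → ¬ Icc s e ⊆ S), (-1 : ℤ) ^ S.card := by
    unfold NF
    congr
  rw [e3, e4, ← e1]
  linarith

end Pool.Agent.W154.MF
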